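import Pool.Agent.Q161.StablePat

/-!
# Non-monotone consecutive patterns can be stable

For every `ℓ ≥ 5` the consecutive pattern `1 2 ⋯ (ℓ-3) (ℓ-1) (ℓ-2) ℓ` (for `ℓ = 5`: `12435`) is
stable on multiset permutations, although it is not monotone. So the answer to Q1 is negative.

Proof idea: two overlapping occurrences of this pattern share one or two entries, and all new
entries are larger than all old ones, so a cluster of overlapping occurrences has distinct letters.
Marked words can then be relabelled cluster by cluster, which gives the symmetry of the number of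
words with a marked set of `r` occurrences for every `r`.
-/

set_option autoImplicit false

namespace Pool.Agent.Results.MP_5514a7_co.NonMonotoneStable

/-- The consecutive pattern `p` of length `ℓ` occurs at position `j` (counted from `0`) of the word
`w` of length `m` over the ordered alphabet `Fin n`: the factor of length `ℓ` starting at `j` fits
into `w` and is order-isomorphic to `p`. -/
def IsOcc {ℓ m n : ℕ} (p : Equiv.Perm (Fin ℓ)) (w : Fin m → Fin n) (j : ℕ) : Prop :=
  ∃ _h : j + ℓ ≤ m, ∀ a b : Fin ℓ,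
    w ⟨j + a, by omega⟩ < w ⟨j + b, by omega⟩ ↔ p a < p b

/-- `|M(k_1,…,k_n)^*(p;s)|`: the number of words of length `k_1 + ⋯ + k_n` over `Fin n` in which each
letter `i` appears exactly `k i` times and which have exactly `s` occurrences of `p`. -/
noncomputable def count {ℓ n : ℕ} (p : Equiv.Perm (Fin ℓ)) (k : Fin n → ℕ) (s : ℕ) : ℕ :=
  Nat.card {w : Fin (∑ i, k i) → Fin n //
    (∀ i, Nat.card {x // w x = i} = k i) ∧ Nat.card {j : ℕ // IsOcc p w j} = s}

/-- `p` is stable: the distribution of the number of occurrences does not change when the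
multiplicities are permuted. -/
def Stable {ℓ : ℕ} (p : Equiv.Perm (Fin ℓ)) : Prop :=
  ∀ (n : ℕ) (k : Fin n → ℕ) (σ : Equiv.Perm (Fin n)) (s : ℕ), count p k s = count p (k ∘ σ) s

/-- `p` is `12⋯ℓ` or `ℓ⋯21`. -/
def IsMonotonePattern {ℓ : ℕ} (p : Equiv.Perm (Fin ℓ)) : Prop :=
  (∀ a, p a = a) ∨ (∀ a, p a = Fin.rev a)

theorem count_eq {ℓ n : ℕ} (p : Equiv.Perm (Fin ℓ)) (k : Fin n → ℕ) (s : ℕ) :
    count p k s = Q161.Stable.N p (∑ i, k i) k s := by
  classical
  unfold count Q161.Stable.N
  rw [Nat.card_eq_fintype_card, Fintype.card_subtype]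
  congr 1
  ext w
  simp only [Finset.mem_filter, Finset.mem_univ, true_and, Q161.Stable.Wd]
  have h1 : ∀ i, Nat.card {x // w x = i} = Q161.Stable.cont w i := by
    intro i
    rw [Nat.card_eq_fintype_card, Fintype.card_subtype]
    rfl
  have h2 : Nat.card {j : ℕ // IsOcc p w j} = (Q161.Stable.occSet p w).card := by
    rw [← Nat.card_eq_finsetCard]
    apply Nat.card_congr
    apply Equiv.subtypeEquivRight
    intro j
    rw [Q161.Stable.mem_occSet]
    rfl
  simp only [h1, h2]

/-- For every `ℓ ≥ 5` the pattern `1 2 ⋯ (ℓ-3) (ℓ-1) (ℓ-2) ℓ`, the transposition of the third last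
and the second last position (and value), is not monotone but stable. For `ℓ = 5` this is
`12435`. -/
theorem result : ∀ (ℓ : ℕ) (h : 5 ≤ ℓ),
    ¬ IsMonotonePattern (Equiv.swap (⟨ℓ - 3, by omega⟩ : Fin ℓ) ⟨ℓ - 2, by omega⟩) ∧
      Stable (Equiv.swap (⟨ℓ - 3, by omega⟩ : Fin ℓ) ⟨ℓ - 2, by omega⟩) := by
  intro ℓ h
  obtain ⟨d, rfl⟩ : ∃ d, ℓ = d + 5 := ⟨ℓ - 5, by omega⟩
  have e : Equiv.swap (⟨d + 5 - 3, by omega⟩ : Fin (d + 5)) ⟨d + 5 - 2, by omega⟩ =
      Q161.Stable.pat d := rfl
  rw [e]
  constructor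
  · rintro (h1 | h1)
    · have := congrArg Fin.val (h1 ⟨d + 2, by omega⟩)
      rw [Q161.Stable.pat_val] at this
      simp at this
    · have := congrArg Fin.val (h1 ⟨0, by omega⟩)
      rw [Q161.Stable.pat_val, Fin.val_rev] at this
      simp at this
  · intro n k σ s
    rw [count_eq, count_eq]
    have e2 : ∑ i, (k ∘ σ) i = ∑ i, k i := Equiv.sum_comp σ k
    rw [e2]
    exact Q161.Stable.N_perm _ (Q161.Stable.clusterInj d) σ k s

end Pool.Agent.Results.MP_5514a7_co.NonMonotoneStable
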